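import Pool.Agent.H17.BO.TargetsA

/-!
# MP_70ba79_ag: module FNL of the board `bo_modules`

Velocities as functionals of the symbol.
-/

set_option autoImplicit false

namespace Pool.Agent.H1.BO

open MvPolynomial SC Pool.Agent.H27.LV Pool.Agent.H17.VG Pool.Agent.H17.BO

theorem pf_FNL (hWD : T_WD) (hOP : T_OP) : T_FNL := by
  classical
  intro R K _ _ _ _ n e F D x ν hS hν
  -- chosen operators
  have h1 : ∀ M : Mon (n + 1) (e + 1), ∃ τ : Op R K n, opF τ F = mono K M.1 :=
    fun M => hS.surj _ (isHomogeneous_mono M)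
  choose τM hτM using h1
  have h0 : opF (0 : Op R K n) F = 0 ∧ opV (0 : Op R K n) x = 0 := by
    obtain ⟨-, -, h3, h4, -⟩ := hOP R K n 0 (0 : Op R K n) 0 F F 0 0 x
    simp only [zero_smul, add_zero, map_zero, zero_mul] at h3 h4
    exact ⟨h3, h4⟩
  have hlin : ∀ (s : Finset (Mon (n + 1) (e + 1))) (c : Mon (n + 1) (e + 1) → K),
      opF (∑ M ∈ s, c M • τM M) F = ∑ M ∈ s, C (c M) * mono K M.1 ∧
      opV (∑ M ∈ s, c M • τM M) x = ∑ M ∈ s, c M • opV (τM M) x := by
    intro s c
    induction s using Finset.induction_on with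
    | empty => simpa using h0
    | insert a s ha ih =>
      obtain ⟨-, -, h3, h4, -⟩ := hOP R K n 0 (τM a) (∑ M ∈ s, c M • τM M) F F (c a) 1 x
      rw [one_smul] at h3 h4
      rw [Finset.sum_insert ha, Finset.sum_insert ha, Finset.sum_insert ha, h3, h4, ih.1, ih.2,
        hτM]
      constructor
      · simp
      · simp
  have key : ∀ τ : Op R K n, fnl (fun M : Mon (n + 1) (e + 1) => ∑ i, ν i * opV (τM M) x i)
      (opF τ F) = ∑ i, ν i * opV τ x i := by
    intro τ
    have hh : (opF τ F).IsHomogeneous (e + 1) :=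
      (hOP R K n (e + 1) τ τ F F 0 0 x).2.2.2.2 hS.homog
    obtain ⟨hl1, hl2⟩ := hlin Finset.univ (fun M => coeff (fs M.1) (opF τ F))
    have h5 : opF τ F = opF (∑ M, coeff (fs M.1) (opF τ F) • τM M) F := by
      rw [hl1]
      exact dec hh
    obtain ⟨c, hc⟩ := hWD R K n (e + 1) F D hS _ _ h5
    have h6 := hc x
    rw [h6, hl2]
    unfold fnl
    simp only [Pi.add_apply, Finset.sum_apply, Pi.smul_apply, smul_eq_mul, mul_add,
      Finset.sum_add_distrib, Finset.sum_mul, Finset.mul_sum]
    rw [Finset.sum_comm]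
    have h7 : ∑ i, ν i * (c * D (x i)) = 0 := by
      calc ∑ i, ν i * (c * D (x i)) = c * ∑ i, ν i * D (x i) := by
            rw [Finset.mul_sum]; exact Finset.sum_congr rfl fun i _ => by ring
        _ = 0 := by rw [hν, mul_zero]
    rw [h7, add_zero]
    exact Finset.sum_congr rfl fun i _ => Finset.sum_congr rfl fun M _ => by ring
  refine ⟨_, key, fun j a => ?_⟩
  have h8 : X j * pderiv a F = opF ((0, Matrix.single a j 1) : Op R K n) F := by
    unfold opF cD
    simp only [Derivation.zero_apply, map_zero, Finset.sum_const_zero, zero_add]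
    rw [Finset.sum_eq_single a]
    · congr 1
      rw [Finset.sum_eq_single j]
      · simp
      · intro b _ hb
        rw [Matrix.single_apply_of_col_ne _ _ (Ne.symm hb)]
        simp
      · simp
    · intro b _ hb
      rw [Finset.sum_eq_zero, zero_mul]
      intro l _
      rw [Matrix.single_apply_of_row_ne (Ne.symm hb)]
      simp
    · simp
  rw [h8, key]
  unfold opV
  simp only [Derivation.zero_apply, zero_sub]
  rw [Finset.sum_eq_single a]
  · rw [Finset.sum_eq_single j]
    · simp [mul_comm]
    · intro b _ hb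
      rw [Matrix.single_apply_of_col_ne _ _ (Ne.symm hb)]
      simp
    · simp
  · intro b _ hb
    rw [Finset.sum_eq_zero]
    · simp
    · intro l _
      rw [Matrix.single_apply_of_row_ne (Ne.symm hb)]
      simp
  · simp

end Pool.Agent.H1.BO
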