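import Pool.Agent.H17.BO.TargetsC

/-!
# MP_70ba79_ag: module SG2 of the board `bo_modules`

A point of the plane which is orthogonal to two vectors in a pencil.
-/

set_option autoImplicit false

namespace Pool.Agent.H1.BO

open MvPolynomial SC Pool.Agent.H27.LV Pool.Agent.H17.VG Pool.Agent.H17.BO

private lemma line_of_rel {k L : Type} [Field k] [Field L] [Algebra k L] {x : Fin 3 → L}
    {A B C : Fin 3 → k} {p q r : L}
    (hx : ∀ i, x i = p * algebraMap k L (A i) + q * algebraMap k L (B i) +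
      r * algebraMap k L (C i))
    {α β γ : k} (hα : α ≠ 0) (h : ∀ i, α * A i + β * B i + γ * C i = 0) : OnLine k x := by
  have hα' : algebraMap k L α ≠ 0 := by simpa using hα
  refine ⟨B, C, q - p * (algebraMap k L β / algebraMap k L α),
    r - p * (algebraMap k L γ / algebraMap k L α), fun i => ?_⟩
  have h1 := congrArg (algebraMap k L) (h i)
  simp only [map_add, map_mul, map_zero] at h1
  rw [hx i]
  field_simp
  linear_combination p * h1

theorem pf_SG2 : T_SG2 := by
  intro k L _ _ _ x m hm hmx w w' a b hw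
  -- the cross product
  obtain ⟨c, hc⟩ : ∃ c : Fin 3 → L, c = crossProduct (m 0) (m 1) := ⟨_, rfl⟩
  have hm' : LinearIndependent L ![m 0, m 1] := by
    have : (![m 0, m 1] : Fin 2 → Fin 3 → L) = m := by
      funext i
      fin_cases i <;> rfl
    rwa [this]
  have hc0 : c ≠ 0 := by
    rw [hc]
    exact crossProduct_ne_zero_iff_linearIndependent.2 hm'
  have h0 := hmx 0
  have h1 := hmx 1
  rw [Fin.sum_univ_three] at h0 h1
  have e0 : c 0 = m 0 1 * m 1 2 - m 0 2 * m 1 1 := by rw [hc, cross_apply]; rfl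
  have e1 : c 1 = m 0 2 * m 1 0 - m 0 0 * m 1 2 := by rw [hc, cross_apply]; rfl
  have e2 : c 2 = m 0 0 * m 1 1 - m 0 1 * m 1 0 := by rw [hc, cross_apply]; rfl
  have h01 : x 0 * c 1 = x 1 * c 0 := by
    rw [e0, e1]
    linear_combination m 0 2 * h1 - m 1 2 * h0
  have h02 : x 0 * c 2 = x 2 * c 0 := by
    rw [e0, e2]
    linear_combination m 1 1 * h0 - m 0 1 * h1
  have h12 : x 1 * c 2 = x 2 * c 1 := by
    rw [e1, e2]
    linear_combination m 0 0 * h1 - m 1 0 * h0
  obtain ⟨l, hl⟩ : ∃ l : L, ∀ i, x i = l * c i := by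
    obtain ⟨t, ht⟩ : ∃ t, c t ≠ 0 := by
      by_contra hne
      push Not at hne
      exact hc0 (funext hne)
    refine ⟨x t / c t, fun i => ?_⟩
    rw [div_mul_eq_mul_div, eq_div_iff ht]
    fin_cases t <;> fin_cases i <;> simp only [Fin.zero_eta, Fin.mk_one, Fin.reduceFinMk]
    · exact h01.symm
    · exact h02.symm
    · exact h01
    · exact h12.symm
    · exact h02
    · exact h12
  -- the three vectors over `k`
  obtain ⟨A, hA⟩ : ∃ A : Fin 3 → k, A = ![w 0 1 * w 1 2 - w 0 2 * w 1 1,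
      w 0 2 * w 1 0 - w 0 0 * w 1 2, w 0 0 * w 1 1 - w 0 1 * w 1 0] := ⟨_, rfl⟩
  obtain ⟨B, hB⟩ : ∃ B : Fin 3 → k, B =
      ![w 0 1 * w' 1 2 - w 0 2 * w' 1 1 + (w' 0 1 * w 1 2 - w' 0 2 * w 1 1),
      w 0 2 * w' 1 0 - w 0 0 * w' 1 2 + (w' 0 2 * w 1 0 - w' 0 0 * w 1 2),
      w 0 0 * w' 1 1 - w 0 1 * w' 1 0 + (w' 0 0 * w 1 1 - w' 0 1 * w 1 0)] := ⟨_, rfl⟩
  obtain ⟨C, hC⟩ : ∃ C : Fin 3 → k, C = ![w' 0 1 * w' 1 2 - w' 0 2 * w' 1 1,
      w' 0 2 * w' 1 0 - w' 0 0 * w' 1 2, w' 0 0 * w' 1 1 - w' 0 1 * w' 1 0] := ⟨_, rfl⟩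
  have hx : ∀ i, x i = l * (a ^ 2 * algebraMap k L (A i) + a * b * algebraMap k L (B i) +
      b ^ 2 * algebraMap k L (C i)) := by
    intro i
    rw [hl i]
    congr 1
    fin_cases i
    · simp only [Fin.zero_eta, e0, hA, hB, hC, hw, Matrix.cons_val_zero, map_sub, map_add,
        map_mul]
      ring
    · simp only [Fin.mk_one, e1, hA, hB, hC, hw, Matrix.cons_val_one, Matrix.cons_val_zero,
        map_sub, map_add, map_mul]
      ring
    · simp only [Fin.reduceFinMk, e2, hA, hB, hC, hw, Matrix.cons_val, map_sub, map_add,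
        map_mul]
      ring
  by_cases hli : LinearIndependent k ![A, B, C]
  · exact Or.inr ⟨A, B, C, hli, l, a, b, hx⟩
  · left
    obtain ⟨g, hg, i, hi⟩ := Fintype.not_linearIndependent_iff.1 hli
    have hg' : ∀ j, g 0 * A j + g 1 * B j + g 2 * C j = 0 := by
      intro j
      have := congrFun hg j
      simpa [Fin.sum_univ_three] using this
    fin_cases i
    · exact line_of_rel (p := l * a ^ 2) (q := l * (a * b)) (r := l * b ^ 2)
        (A := A) (B := B) (C := C) (fun i => by rw [hx i]; ring) hi hg'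
    · exact line_of_rel (p := l * (a * b)) (q := l * a ^ 2) (r := l * b ^ 2)
        (A := B) (B := A) (C := C) (α := g 1) (β := g 0) (γ := g 2)
        (fun i => by rw [hx i]; ring) hi (fun j => by linear_combination hg' j)
    · exact line_of_rel (p := l * b ^ 2) (q := l * a ^ 2) (r := l * (a * b))
        (A := C) (B := A) (C := B) (α := g 2) (β := g 0) (γ := g 1)
        (fun i => by rw [hx i]; ring) hi (fun j => by linear_combination hg' j)

end Pool.Agent.H1.BO
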