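import Pool.Agent.H82.BO.Targets

/-!
MP_c62aed_lc, board `bopt_modules`, row YUN: the union bound for the sets of `i` and the tuples of
assignments.
-/

set_option autoImplicit false

namespace Pool.Agent.H1.BO

open Finset Pool.Agent.H82.BO
open Pool.Agent.H15.FLC (Half Violates InsC CovC KerC ErrC BRC ERC KRC BadC)
open Pool.Agent.H15.FLD (H0 tau0 Par0 T_EB0 T_HX0 T_NM0)

/-- the number of functions whose values on `T` have the property `A` -/
private lemma card_on {M : ℕ} {B : Type} [Finite B] (T : Finset (Fin M)) (A : B → Prop) (p : ℝ)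
    (hA : (Nat.card {G : B // A G} : ℝ) ≤ p * Nat.card B) :
    (Nat.card {D : Fin M → B // ∀ i ∈ T, A (D i)} : ℝ) ≤
      p ^ T.card * (Nat.card B : ℝ) ^ M := by
  classical
  haveI : Fintype B := Fintype.ofFinite B
  rw [Nat.card_eq_fintype_card, Nat.card_eq_fintype_card, Fintype.card_subtype] at hA
  rw [Nat.card_eq_fintype_card, Nat.card_eq_fintype_card, Fintype.card_subtype]
  have e : (univ.filter fun D : Fin M → B => ∀ i ∈ T, A (D i)) =
      Fintype.piFinset (fun i => if i ∈ T then univ.filter A else univ) := by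
    ext D
    rw [mem_filter, Fintype.mem_piFinset]
    constructor
    · rintro ⟨-, h⟩ i
      by_cases hi : i ∈ T
      · rw [if_pos hi, mem_filter]
        exact ⟨mem_univ _, h i hi⟩
      · rw [if_neg hi]
        exact mem_univ _
    · intro h
      refine ⟨mem_univ _, fun i hi => ?_⟩
      have h1 := h i
      rw [if_pos hi, mem_filter] at h1
      exact h1.2
  rw [e, Fintype.card_piFinset, Nat.cast_prod]
  have h1 : ∏ i : Fin M, ((if i ∈ T then univ.filter A else univ).card : ℝ) ≤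
      ∏ i : Fin M, ((if i ∈ T then p else 1) * (Fintype.card B : ℝ)) := by
    refine prod_le_prod (fun i _ => Nat.cast_nonneg _) fun i _ => ?_
    by_cases hi : i ∈ T
    · rw [if_pos hi, if_pos hi]
      exact hA
    · rw [if_neg hi, if_neg hi, one_mul, card_univ]
  refine h1.trans (le_of_eq ?_)
  rw [prod_mul_distrib, prod_const, card_univ, Fintype.card_fin]
  congr 1
  rw [prod_ite_mem, univ_inter, prod_const]

theorem pf_YUN (hYPI : T_YPI) : T_YUN := by
  classical
  intro n l M μ z q η lam hη hη1 hl hl1 hμ hz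
  obtain ⟨p, hp⟩ : ∃ p : ℝ, p = (z : ℝ) ^ z * lam ^ z := ⟨_, rfl⟩
  have hp0 : 0 ≤ p := by
    rw [hp]
    positivity
  rw [← hp]
  obtain ⟨C, hC⟩ : ∃ C : ℝ, C = (Nat.card (Fin μ → Half n l) : ℝ) := ⟨_, rfl⟩
  have hC0 : 0 ≤ C := by
    rw [hC]
    exact Nat.cast_nonneg _
  have hcardD : (Nat.card (Fin M × Fin μ → Half n l) : ℝ) = C ^ M := by
    rw [Nat.card_congr (Equiv.curry (Fin M) (Fin μ) (Half n l)), Nat.card_fun,
      Nat.card_eq_fintype_card (α := Fin M), Fintype.card_fin, hC, Nat.cast_pow]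
  rw [hcardD]
  -- one set and one tuple
  have hone : ∀ (T : Finset (Fin M)) (y : Fin z → Fin n → Bool), T.card = q + 1 →
      (∀ a b, a ≠ b → η * n ≤ hammingDist (y a) (y b)) →
      (Nat.card {D : Fin M × Fin μ → Half n l // ∀ i ∈ T, ∀ a, i ∈ RG D (y a)} : ℝ) ≤
        p ^ (q + 1) * C ^ M := by
    intro T y hT hy
    have h1 := hYPI n l μ z η lam y hη hη1 hl hl1 hy hμ hz
    rw [← hp] at h1
    have h2 := card_on T (fun G : Fin μ → Half n l => ∀ a, ∃ j, Violates (G j) (y a)) p h1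
    rw [← hC, hT] at h2
    refine le_trans (le_of_eq ?_) h2
    congr 1
    exact Nat.card_congr ((Equiv.curry (Fin M) (Fin μ) (Half n l)).subtypeEquiv fun D => Iff.rfl)
  obtain ⟨S, hS⟩ : ∃ S : Finset (Finset (Fin M)), S = powersetCard (q + 1) univ := ⟨_, rfl⟩
  have hSc : (S.card : ℝ) ≤ (M : ℝ) ^ (q + 1) := by
    have h1 : S.card ≤ M ^ (q + 1) := by
      rw [hS, card_powersetCard, card_univ, Fintype.card_fin]
      exact Nat.choose_le_pow _ _
    exact_mod_cast h1
  have hmem : ∀ T : Finset (Fin M), T ∈ S ↔ T.card = q + 1 := by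
    intro T
    rw [hS, mem_powersetCard]
    exact ⟨fun h => h.2, fun h => ⟨subset_univ _, h⟩⟩
  let W : {T // T ∈ S} × (Fin z → Fin n → Bool) → Type := fun t =>
    {D : Fin M × Fin μ → Half n l // (∀ a b, a ≠ b → η * n ≤ hammingDist (t.2 a) (t.2 b)) ∧
      ∀ i ∈ t.1.1, ∀ a, i ∈ RG D (t.2 a)}
  have hW : ∀ t, (Nat.card (W t) : ℝ) ≤ p ^ (q + 1) * C ^ M := by
    intro t
    have hT : t.1.1.card = q + 1 := (hmem _).1 t.1.2
    by_cases hy : ∀ a b, a ≠ b → η * n ≤ hammingDist (t.2 a) (t.2 b)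
    · refine le_trans ?_ (hone t.1.1 t.2 hT hy)
      have : Nat.card (W t) ≤ Nat.card {D : Fin M × Fin μ → Half n l // ∀ i ∈ t.1.1, ∀ a,
          i ∈ RG D (t.2 a)} :=
        Nat.card_le_card_of_injective (fun D => ⟨D.1, D.2.2⟩) fun D D' h =>
          Subtype.ext (Subtype.mk.inj h)
      exact_mod_cast this
    · have : IsEmpty (W t) := ⟨fun D => hy D.2.1⟩
      rw [Nat.card_of_isEmpty, Nat.cast_zero]
      positivity
  have hsur : Nat.card {D : Fin M × Fin μ → Half n l // ∃ (T : Finset (Fin M))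
        (y : Fin z → Fin n → Bool), T.card = q + 1 ∧
        (∀ a b, a ≠ b → η * n ≤ hammingDist (y a) (y b)) ∧ ∀ i ∈ T, ∀ a, i ∈ RG D (y a)} ≤
      Nat.card (Σ t, W t) := by
    refine Nat.card_le_card_of_surjective (fun t : (Σ t, W t) => ⟨t.2.1, t.1.1.1, t.1.2,
      (hmem _).1 t.1.1.2, t.2.2.1, t.2.2.2⟩) ?_
    rintro ⟨D, T, y, hT, hy, hr⟩
    exact ⟨⟨(⟨T, (hmem T).2 hT⟩, y), ⟨D, hy, hr⟩⟩, rfl⟩
  calc _ ≤ ((Nat.card (Σ t, W t) : ℕ) : ℝ) := by exact_mod_cast hsur
    _ = ∑ t, (Nat.card (W t) : ℝ) := by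
        rw [Nat.card_sigma, Nat.cast_sum]
    _ ≤ ∑ _t : {T // T ∈ S} × (Fin z → Fin n → Bool), p ^ (q + 1) * C ^ M :=
        sum_le_sum fun t _ => hW t
    _ = (S.card * (2 ^ n) ^ z) * (p ^ (q + 1) * C ^ M) := by
        rw [sum_const, nsmul_eq_mul, card_univ, Fintype.card_prod, Fintype.card_coe,
          Fintype.card_fun, Fintype.card_fun, Fintype.card_bool, Fintype.card_fin,
          Fintype.card_fin]
        push_cast
        ring
    _ ≤ ((M : ℝ) ^ (q + 1) * (2 ^ n) ^ z) * (p ^ (q + 1) * C ^ M) := by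
        refine mul_le_mul_of_nonneg_right ?_ (by positivity)
        exact mul_le_mul_of_nonneg_right hSc (by positivity)
    _ = _ := by ring

end Pool.Agent.H1.BO
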